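import Mathlib

/-! Counting of score vectors of tournaments (MP_2d701a_co, project of helper83). -/

set_option autoImplicit false

namespace Pool.Agent.Helper23.TI2

open Finset

/-- `T` is a tournament on `n` labelled vertices: `T u v` says that the arc between `u` and `v`
goes from `u` to `v`. -/
def IsTournament {n : ℕ} (T : Fin n → Fin n → Prop) : Prop :=
  (∀ u, ¬ T u u) ∧ ∀ u v, u ≠ v → (T u v ↔ ¬ T v u)

/-- The outdegree of the vertex `u`. -/
noncomputable def outdegree {n : ℕ} (T : Fin n → Fin n → Prop) (u : Fin n) : ℕ :=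
  Nat.card {v // T u v}

/-- the tournament attached to `t` -/
private def TT (k m : ℕ) (t : Fin k → Fin (m+1)) (u v : Fin (k+m)) : Prop :=
  if hu : (u : ℕ) < k then
    if (v : ℕ) < k then (u : ℕ) < v else (v : ℕ) - k < (t ⟨u, hu⟩ : ℕ)
  else
    if hv : (v : ℕ) < k then ¬ ((u : ℕ) - k < (t ⟨v, hv⟩ : ℕ)) else (u : ℕ) < v

private lemma TT_tour (k m : ℕ) (t : Fin k → Fin (m+1)) : IsTournament (TT k m t) := by
  constructor
  · intro u
    unfold TT
    split_ifs <;> simp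
  · intro u v huv
    have huv' : (u : ℕ) ≠ v := fun h => huv (Fin.ext h)
    unfold TT
    split_ifs with h1 h2 h2
    · omega
    · exact (not_not).symm
    · exact Iff.rfl
    · omega

private lemma card_fin_lt (m a : ℕ) (h : a ≤ m) :
    Nat.card {i : Fin m // (i : ℕ) < a} = a := by
  rw [Nat.card_eq_fintype_card, Fintype.card_subtype]
  have : (univ.filter fun i : Fin m => (i : ℕ) < a).card =
      ∑ i : Fin m, if (i : ℕ) < a then 1 else 0 := by
    rw [Finset.card_filter]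
  rw [this, Fin.sum_univ_eq_sum_range (fun i => if i < a then 1 else 0) m, ← Finset.card_filter]
  have h2 : (range m).filter (fun i => i < a) = range a := by
    ext i
    simp only [mem_filter, mem_range]
    omega
  rw [h2, card_range]

private lemma outdegree_eq {n : ℕ} (T : Fin n → Fin n → Prop) (u : Fin n) :
    outdegree T u = ∑ v : Fin n, (open Classical in if T u v then 1 else 0) := by
  classical
  unfold outdegree
  rw [Nat.card_eq_fintype_card, Fintype.card_subtype, Finset.card_filter]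

private lemma TT_out (k m : ℕ) (t : Fin k → Fin (m+1)) (u : Fin k) :
    outdegree (TT k m t) (Fin.castAdd m u) =
      (∑ v : Fin k, if u < v then 1 else 0) + (t u : ℕ) := by
  classical
  rw [outdegree_eq, Fin.sum_univ_add]
  congr 1
  · refine sum_congr rfl fun v _ => ?_
    have : TT k m t (Fin.castAdd m u) (Fin.castAdd m v) ↔ u < v := by
      unfold TT
      simp only [Fin.val_castAdd, Fin.is_lt, dif_pos, if_true]
      exact Iff.rfl
    simp only [this]
  · have h1 : ∀ v : Fin m, TT k m t (Fin.castAdd m u) (Fin.natAdd k v) ↔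
        (v : ℕ) < (t u : ℕ) := by
      intro v
      unfold TT
      have h2 : ¬ (k + (v : ℕ) < k) := by omega
      simp only [Fin.val_castAdd, Fin.is_lt, dif_pos, Fin.val_natAdd, h2, if_false,
        Nat.add_sub_cancel_left]
    simp only [h1]
    rw [← Finset.card_filter]
    have h3 := card_fin_lt m (t u) (by have := (t u).2; omega)
    rw [Nat.card_eq_fintype_card, Fintype.card_subtype] at h3
    exact h3

/-- score vectors -/
private abbrev Sc (n : ℕ) : Type :=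
  {R : Fin n → ℕ // ∃ T, IsTournament T ∧ ∀ u, outdegree T u = R u}

private lemma finite_Sc (n : ℕ) : Finite (Sc n) := by
  let f : {T : Fin n → Fin n → Prop // IsTournament T} → Sc n :=
    fun T => ⟨outdegree T.1, T.1, T.2, fun _ => rfl⟩
  refine Finite.of_surjective f ?_
  rintro ⟨R, T, hT, hR⟩
  refine ⟨⟨T, hT⟩, Subtype.ext (funext hR)⟩

theorem lower (n m : ℕ) (h : m ≤ n) :
    (m+1)^(n-m) ≤ Nat.card {R : Fin n → ℕ // ∃ T, IsTournament T ∧ ∀ u, outdegree T u = R u} := by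
  obtain ⟨k, rfl⟩ : ∃ k, n = k + m := ⟨n - m, by omega⟩
  rw [Nat.add_sub_cancel]
  have := finite_Sc (k+m)
  let f : (Fin k → Fin (m+1)) → Sc (k+m) :=
    fun t => ⟨outdegree (TT k m t), TT k m t, TT_tour k m t, fun _ => rfl⟩
  have hf : Function.Injective f := by
    intro t t' htt
    have h1 : outdegree (TT k m t) = outdegree (TT k m t') := congrArg Subtype.val htt
    funext u
    have h2 := congrFun h1 (Fin.castAdd m u)
    rw [TT_out, TT_out] at h2
    exact Fin.ext (by omega)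
  have h2 := Nat.card_le_card_of_injective f hf
  rw [Nat.card_eq_fintype_card, Fintype.card_fun, Fintype.card_fin, Fintype.card_fin] at h2
  exact h2

private lemma exp_sum (lam c : ℝ) (h0 : 0 < lam) (h1 : lam ≤ 1) (hc : 0 ≤ c) (B : ℕ) :
    ∑ j ∈ range B, Real.exp (-lam * |(j : ℝ) - c|) ≤ 4 / lam := by
  set q : ℝ := Real.exp (-lam) with hq
  have hq0 : 0 < q := Real.exp_pos _
  have hq1 : q ≤ 1 - lam / 2 := by
    have h2 : 1 + lam ≤ Real.exp lam := by
      have := Real.add_one_le_exp lam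
      linarith
    have h3 : q = (Real.exp lam)⁻¹ := Real.exp_neg lam
    have h4 : q ≤ (1 + lam)⁻¹ := by
      rw [h3]
      exact inv_anti₀ (by linarith) h2
    refine h4.trans ?_
    rw [inv_le_iff_one_le_mul₀ (by linarith)]
    nlinarith
  have hqlt : q < 1 := by linarith
  have hgeo : ∀ k : ℕ, ∑ i ∈ range k, q ^ i ≤ 2 / lam := by
    intro k
    have h2 : (∑ i ∈ range k, q ^ i) * (1 - q) = 1 - q ^ k := geom_sum_mul_neg q k
    have h3 : 0 ≤ q ^ k := pow_nonneg hq0.le _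
    have h4 : 0 ≤ ∑ i ∈ range k, q ^ i := sum_nonneg fun i _ => pow_nonneg hq0.le _
    rw [le_div_iff₀ h0]
    nlinarith
  set a : ℕ := ⌊c⌋₊ with ha
  have ha1 : (a : ℝ) ≤ c := Nat.floor_le hc
  have ha2 : c < a + 1 := Nat.lt_floor_add_one c
  have hqp : ∀ i : ℕ, q ^ i = Real.exp (-lam * i) := by
    intro i
    rw [hq, ← Real.exp_nat_mul]
    congr 1
    ring
  calc ∑ j ∈ range B, Real.exp (-lam * |(j : ℝ) - c|)
      ≤ ∑ j ∈ range (a + 1 + B), Real.exp (-lam * |(j : ℝ) - c|) := by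
        refine sum_le_sum_of_subset_of_nonneg ?_ fun _ _ _ => (Real.exp_pos _).le
        intro j hj
        have := mem_range.1 hj
        exact mem_range.2 (by omega)
    _ = ∑ j ∈ range (a + 1), Real.exp (-lam * |(j : ℝ) - c|) +
        ∑ j ∈ range B, Real.exp (-lam * |((a + 1 + j : ℕ) : ℝ) - c|) := sum_range_add _ _ _
    _ ≤ ∑ j ∈ range (a + 1), q ^ (a + 1 - 1 - j) + ∑ j ∈ range B, q ^ j := by
        refine add_le_add (sum_le_sum fun j hj => ?_) (sum_le_sum fun j _ => ?_)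
        · have hj' : j ≤ a := by have := mem_range.1 hj; omega
          rw [hqp]
          refine Real.exp_le_exp.2 ?_
          have h2 : ((a + 1 - 1 - j : ℕ) : ℝ) = a - j := by
            rw [Nat.add_sub_cancel, Nat.cast_sub hj']
          rw [h2]
          have h3 : (a : ℝ) - j ≤ |(j : ℝ) - c| := by
            have := neg_abs_le ((j : ℝ) - c)
            linarith
          nlinarith
        · rw [hqp]
          refine Real.exp_le_exp.2 ?_
          have h3 : (j : ℝ) ≤ |((a + 1 + j : ℕ) : ℝ) - c| := by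
            have := le_abs_self (((a + 1 + j : ℕ) : ℝ) - c)
            push_cast at this ⊢
            linarith
          nlinarith
    _ = ∑ j ∈ range (a + 1), q ^ j + ∑ j ∈ range B, q ^ j := by
        rw [Finset.sum_range_reflect (fun j => q ^ j) (a + 1)]
    _ ≤ 2 / lam + 2 / lam := add_le_add (hgeo _) (hgeo _)
    _ = 4 / lam := by ring

theorem upper (n : ℕ) (hn : 1 ≤ n) (M : ℝ) (hM : (n:ℝ) ≤ M) :
    (Nat.card {R : Fin n → ℕ // ∑ v, |(R v : ℝ) - ((n:ℝ)-1)/2| ≤ M} : ℝ) ≤ (11*M/n)^n := by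
  have hn0 : (1:ℝ) ≤ n := by exact_mod_cast hn
  set c : ℝ := ((n:ℝ)-1)/2 with hc
  have hc0 : 0 ≤ c := by rw [hc]; linarith
  have hM0 : 0 < M := by linarith
  set lam : ℝ := n / M with hlam
  have hl0 : 0 < lam := by positivity
  have hl1 : lam ≤ 1 := by
    rw [hlam, div_le_one hM0]
    exact hM
  set B : ℕ := ⌈c + M⌉₊ + 1 with hB
  let F : Finset (Fin n → ℕ) := (Fintype.piFinset fun _ => range B).filter
    fun R => ∑ v, |(R v : ℝ) - c| ≤ M
  have h1 : Nat.card {R : Fin n → ℕ // ∑ v, |(R v : ℝ) - c| ≤ M} ≤ F.card := by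
    have h2 : {R : Fin n → ℕ | ∑ v, |(R v : ℝ) - c| ≤ M} ⊆ (F : Set (Fin n → ℕ)) := by
      intro R hR
      simp only [Set.mem_ofPred_eq] at hR
      simp only [F, coe_filter, Set.mem_ofPred_eq, Fintype.mem_piFinset, mem_range]
      refine ⟨fun v => ?_, hR⟩
      have h3 : |(R v : ℝ) - c| ≤ M := (single_le_sum (f := fun v => |(R v : ℝ) - c|)
        (fun _ _ => abs_nonneg _) (mem_univ v)).trans hR
      have h4 : (R v : ℝ) ≤ c + M := by
        have := le_abs_self ((R v : ℝ) - c)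
        linarith
      have h5 : (R v : ℝ) ≤ ⌈c + M⌉₊ := h4.trans (Nat.le_ceil _)
      have h6 : R v ≤ ⌈c + M⌉₊ := by exact_mod_cast h5
      omega
    have h3 := Set.ncard_le_ncard h2 (Finset.finite_toSet F)
    rw [Set.ncard_coe_finset] at h3
    exact h3
  have h2 : (F.card : ℝ) ≤ Real.exp (lam * M) *
      ∏ _v : Fin n, ∑ j ∈ range B, Real.exp (-lam * |(j : ℝ) - c|) := by
    rw [Finset.prod_univ_sum, Finset.mul_sum]
    calc (F.card : ℝ) = ∑ _R ∈ F, (1 : ℝ) := by simp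
      _ ≤ ∑ R ∈ F, Real.exp (lam * M) * ∏ v, Real.exp (-lam * |(R v : ℝ) - c|) := by
          refine sum_le_sum fun R hR => ?_
          have h3 : ∑ v, |(R v : ℝ) - c| ≤ M := (mem_filter.1 hR).2
          rw [← Real.exp_sum, ← Real.exp_add, ← Finset.mul_sum]
          refine Real.one_le_exp ?_
          nlinarith
      _ ≤ _ := by
          refine sum_le_sum_of_subset_of_nonneg (filter_subset _ _) fun _ _ _ => ?_
          exact mul_nonneg (Real.exp_pos _).le (prod_nonneg fun _ _ => (Real.exp_pos _).le)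
  have h3 : ∏ _v : Fin n, ∑ j ∈ range B, Real.exp (-lam * |(j : ℝ) - c|) ≤ (4 / lam) ^ n := by
    rw [Finset.prod_const, Finset.card_univ, Fintype.card_fin]
    exact pow_le_pow_left₀ (sum_nonneg fun _ _ => (Real.exp_pos _).le)
      (exp_sum lam c hl0 hl1 hc0 B) n
  have h4 : Real.exp (lam * M) = Real.exp 1 ^ n := by
    rw [← Real.exp_nat_mul]
    congr 1
    rw [hlam]
    field_simp
  calc (Nat.card {R : Fin n → ℕ // ∑ v, |(R v : ℝ) - c| ≤ M} : ℝ) ≤ F.card := by exact_mod_cast h1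
    _ ≤ Real.exp 1 ^ n * (4 / lam) ^ n := by
        rw [← h4]
        exact h2.trans (mul_le_mul_of_nonneg_left h3 (Real.exp_pos _).le)
    _ = (Real.exp 1 * (4 / lam)) ^ n := (mul_pow _ _ _).symm
    _ ≤ (11*M/n)^n := by
        refine pow_le_pow_left₀ (by positivity) ?_ n
        have h5 := Real.exp_one_lt_d9
        have h6 : 4 / lam = 4 * M / n := by
          rw [hlam]
          field_simp
        rw [h6]
        have h7 : Real.exp 1 * (4 * M / n) = (Real.exp 1 * 4) * M / n := by ring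
        rw [h7]
        have h8 : Real.exp 1 * 4 ≤ 11 := by linarith
        gcongr

theorem rare : ∃ N : ℕ, ∀ n : ℕ, N ≤ n →
    (Nat.card {R : Fin n → ℕ // (∃ T, IsTournament T ∧ ∀ u, outdegree T u = R u) ∧
      ∑ v, |(R v : ℝ) - ((n:ℝ)-1)/2| < 5 * (n:ℝ)^(15/8 : ℝ)} : ℝ) ≤
    (n:ℝ)^(-(n:ℝ)/20) *
      Nat.card {R : Fin n → ℕ // ∃ T, IsTournament T ∧ ∀ u, outdegree T u = R u} := by
  refine ⟨1100 ^ 40, fun n hn => ?_⟩
  have hn1 : 1 ≤ n := le_trans (Nat.one_le_pow _ _ (by norm_num)) hn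
  have hnR : (1:ℝ) ≤ n := by exact_mod_cast hn1
  have hn0 : (0:ℝ) < n := by linarith
  set M : ℝ := 5 * (n:ℝ)^(15/8 : ℝ) with hM
  have hMn : (n:ℝ) ≤ M := by
    have h1 : (n:ℝ) ^ (1:ℝ) ≤ (n:ℝ)^(15/8 : ℝ) := Real.rpow_le_rpow_of_exponent_le hnR (by norm_num)
    rw [Real.rpow_one] at h1
    rw [hM]
    linarith
  -- the exceptional vectors
  have hA : (Nat.card {R : Fin n → ℕ // (∃ T, IsTournament T ∧ ∀ u, outdegree T u = R u) ∧
      ∑ v, |(R v : ℝ) - ((n:ℝ)-1)/2| < M} : ℝ) ≤ (11*M/n)^n := by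
    refine le_trans ?_ (upper n hn1 M hMn)
    have hfin : Finite {R : Fin n → ℕ // ∑ v, |(R v : ℝ) - ((n:ℝ)-1)/2| ≤ M} := by
      have h2 : {R : Fin n → ℕ | ∑ v, |(R v : ℝ) - ((n:ℝ)-1)/2| ≤ M} ⊆
          (Fintype.piFinset fun _ : Fin n => range (⌈((n:ℝ)-1)/2 + M⌉₊ + 1) :
            Finset (Fin n → ℕ)) := by
        intro R hR
        simp only [Set.mem_ofPred_eq] at hR
        simp only [Finset.mem_coe, Fintype.mem_piFinset, mem_range]
        intro v
        have h3 : |(R v : ℝ) - ((n:ℝ)-1)/2| ≤ M :=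
          (single_le_sum (f := fun v => |(R v : ℝ) - ((n:ℝ)-1)/2|)
          (fun _ _ => abs_nonneg _) (mem_univ v)).trans hR
        have h4 : (R v : ℝ) ≤ ((n:ℝ)-1)/2 + M := by
          have := le_abs_self ((R v : ℝ) - ((n:ℝ)-1)/2)
          linarith
        have h5 : (R v : ℝ) ≤ ⌈((n:ℝ)-1)/2 + M⌉₊ := h4.trans (Nat.le_ceil _)
        have h6 : R v ≤ ⌈((n:ℝ)-1)/2 + M⌉₊ := by exact_mod_cast h5
        omega
      exact Set.Finite.to_subtype ((Finset.finite_toSet _).subset h2)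
    have h3 := Nat.card_le_card_of_injective
      (fun R : {R : Fin n → ℕ // (∃ T, IsTournament T ∧ ∀ u, outdegree T u = R u) ∧
        ∑ v, |(R v : ℝ) - ((n:ℝ)-1)/2| < M} =>
        (⟨R.1, R.2.2.le⟩ : {R : Fin n → ℕ // ∑ v, |(R v : ℝ) - ((n:ℝ)-1)/2| ≤ M}))
      (fun R R' h => Subtype.ext (Subtype.mk.inj h))
    exact_mod_cast h3
  -- all score vectors
  have hL : ((n:ℝ)/20) ^ (19 * (n:ℝ) / 20) ≤
      Nat.card {R : Fin n → ℕ // ∃ T, IsTournament T ∧ ∀ u, outdegree T u = R u} := by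
    have h1 := lower n (n/20) (Nat.div_le_self _ _)
    have h2 : ((n/20 + 1 : ℕ) : ℝ) ^ ((n - n/20 : ℕ) : ℝ) ≤
        Nat.card {R : Fin n → ℕ // ∃ T, IsTournament T ∧ ∀ u, outdegree T u = R u} := by
      rw [Real.rpow_natCast]
      exact_mod_cast h1
    refine le_trans ?_ h2
    have h3 : (n:ℝ)/20 ≤ ((n/20 + 1 : ℕ) : ℝ) := by
      have h4 : n ≤ 20 * (n/20 + 1) := by omega
      have h5 : (n:ℝ) ≤ 20 * ((n/20 + 1 : ℕ) : ℝ) := by exact_mod_cast h4
      linarith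
    have h6 : 19 * (n:ℝ) / 20 ≤ ((n - n/20 : ℕ) : ℝ) := by
      have h4 : 19 * n ≤ 20 * (n - n/20) := by omega
      have h5 : 19 * (n:ℝ) ≤ 20 * ((n - n/20 : ℕ) : ℝ) := by exact_mod_cast h4
      linarith
    have h7 : (1:ℝ) ≤ ((n/20 + 1 : ℕ) : ℝ) := by
      exact_mod_cast Nat.le_add_left 1 _
    calc ((n:ℝ)/20) ^ (19 * (n:ℝ) / 20) ≤ ((n/20 + 1 : ℕ) : ℝ) ^ (19 * (n:ℝ) / 20) :=
          Real.rpow_le_rpow (by positivity) h3 (by positivity)
      _ ≤ _ := Real.rpow_le_rpow_of_exponent_le h7 h6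
  refine hA.trans ?_
  refine le_trans ?_ (mul_le_mul_of_nonneg_left hL (Real.rpow_nonneg hn0.le _))
  -- comparison of the bases
  have hroot : (1100:ℝ) ≤ (n:ℝ) ^ (1/40 : ℝ) := by
    have h1 : ((1100:ℝ) ^ (40:ℝ)) ≤ n := by
      have : ((1100 ^ 40 : ℕ) : ℝ) ≤ n := by exact_mod_cast hn
      have h2 : ((1100:ℝ) ^ (40:ℝ)) = ((1100 ^ 40 : ℕ) : ℝ) := by
        rw [show (40:ℝ) = ((40:ℕ):ℝ) by norm_num, Real.rpow_natCast]
        push_cast
        ring
      rw [h2]
      exact this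
    have h2 := Real.rpow_le_rpow (by positivity) h1 (show (0:ℝ) ≤ 1/40 by norm_num)
    rw [← Real.rpow_mul (by norm_num)] at h2
    norm_num at h2 ⊢
    exact h2
  have hbase : 11*M/n ≤ (n:ℝ) ^ (-(1:ℝ)/20) * ((n:ℝ)/20) ^ ((19:ℝ)/20) := by
    have h1 : 11*M/n = 55 * (n:ℝ) ^ (7/8 : ℝ) := by
      rw [hM]
      have h2 : (n:ℝ)^(15/8 : ℝ) = (n:ℝ) ^ (7/8 : ℝ) * n := by
        have h3 : (n:ℝ) ^ (7/8 : ℝ) * n = (n:ℝ) ^ (7/8 : ℝ) * (n:ℝ) ^ (1:ℝ) := by
          rw [Real.rpow_one]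
        rw [h3, ← Real.rpow_add hn0]
        norm_num
      rw [h2]
      field_simp
      ring
    have h2 : (n:ℝ) ^ (-(1:ℝ)/20) * ((n:ℝ)/20) ^ ((19:ℝ)/20) =
        (n:ℝ) ^ (9/10 : ℝ) / (20:ℝ) ^ ((19:ℝ)/20) := by
      rw [Real.div_rpow hn0.le (by norm_num), mul_div_assoc', ← Real.rpow_add hn0]
      norm_num
    have h3 : (20:ℝ) ^ ((19:ℝ)/20) ≤ 20 := by
      have := Real.rpow_le_rpow_of_exponent_le (show (1:ℝ) ≤ 20 by norm_num)
        (show (19:ℝ)/20 ≤ 1 by norm_num)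
      rwa [Real.rpow_one] at this
    have h4 : (0:ℝ) < (20:ℝ) ^ ((19:ℝ)/20) := by positivity
    rw [h1, h2, le_div_iff₀ h4]
    have h5 : (n:ℝ) ^ (9/10 : ℝ) = (n:ℝ) ^ (7/8 : ℝ) * (n:ℝ) ^ (1/40 : ℝ) := by
      rw [← Real.rpow_add hn0]
      norm_num
    rw [h5]
    have h6 : (0:ℝ) < (n:ℝ) ^ (7/8 : ℝ) := by positivity
    calc 55 * (n:ℝ) ^ (7/8 : ℝ) * (20:ℝ) ^ ((19:ℝ)/20) ≤ 55 * (n:ℝ) ^ (7/8 : ℝ) * 20 :=
          mul_le_mul_of_nonneg_left h3 (by positivity)
      _ = (n:ℝ) ^ (7/8 : ℝ) * 1100 := by ring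
      _ ≤ _ := mul_le_mul_of_nonneg_left hroot h6.le
  calc (11*M/n)^n ≤ ((n:ℝ) ^ (-(1:ℝ)/20) * ((n:ℝ)/20) ^ ((19:ℝ)/20)) ^ n :=
        pow_le_pow_left₀ (by positivity) hbase n
    _ = (n:ℝ)^(-(n:ℝ)/20) * ((n:ℝ)/20) ^ (19 * (n:ℝ) / 20) := by
        rw [mul_pow, ← Real.rpow_natCast, ← Real.rpow_natCast, ← Real.rpow_mul hn0.le,
          ← Real.rpow_mul (by positivity)]
        congr 2 <;> ring

end Pool.Agent.Helper23.TI2
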